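import Mathlib

-- part Pool.Agent.Lib.MP_c25fd9_nt.Cong
section

/-! First-order expansions modulo `t^2` in a local subring `O` of a field. -/

set_option autoImplicit false

namespace Pool.Agent.Lib.MP_c25fd9_nt

open Finset

variable {K : Type*} [Field K]

/-- `x ∈ t O` -/
def M1 (O : Subring K) (t x : K) : Prop := ∃ r ∈ O, x = t * r

/-- `x ∈ t^2 O` -/
def M2 (O : Subring K) (t x : K) : Prop := ∃ r ∈ O, x = t ^ 2 * r

/-- `u ≡ 1 + t α` modulo `t^2 O` -/
def E (O : Subring K) (t u α : K) : Prop := α ∈ O ∧ M2 O t (u - 1 - t * α)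

/-- locality hypothesis -/
structure Loc (O : Subring K) (t : K) : Prop where
  mem : t ∈ O
  ne : ∀ r ∈ O, 1 + t * r ≠ 0
  inv : ∀ r ∈ O, (1 + t * r)⁻¹ ∈ O

variable {O : Subring K} {t : K}

lemma M1.zero : M1 O t 0 := ⟨0, O.zero_mem, by simp⟩
lemma M2.zero : M2 O t 0 := ⟨0, O.zero_mem, by simp⟩

lemma M1.add {x y : K} (hx : M1 O t x) (hy : M1 O t y) : M1 O t (x + y) := by
  obtain ⟨r, hr, rfl⟩ := hx
  obtain ⟨s, hs, rfl⟩ := hy
  exact ⟨r + s, O.add_mem hr hs, by ring⟩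

lemma M2.add {x y : K} (hx : M2 O t x) (hy : M2 O t y) : M2 O t (x + y) := by
  obtain ⟨r, hr, rfl⟩ := hx
  obtain ⟨s, hs, rfl⟩ := hy
  exact ⟨r + s, O.add_mem hr hs, by ring⟩

lemma M1.mul_left {x c : K} (hx : M1 O t x) (hc : c ∈ O) : M1 O t (c * x) := by
  obtain ⟨r, hr, rfl⟩ := hx
  exact ⟨c * r, O.mul_mem hc hr, by ring⟩

lemma M2.mul_left {x c : K} (hx : M2 O t x) (hc : c ∈ O) : M2 O t (c * x) := by
  obtain ⟨r, hr, rfl⟩ := hx
  exact ⟨c * r, O.mul_mem hc hr, by ring⟩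

lemma M1.neg {x : K} (hx : M1 O t x) : M1 O t (-x) := by
  have := hx.mul_left (O.neg_mem O.one_mem); simpa using this

lemma M2.neg {x : K} (hx : M2 O t x) : M2 O t (-x) := by
  have := hx.mul_left (O.neg_mem O.one_mem); simpa using this

lemma M1.sub {x y : K} (hx : M1 O t x) (hy : M1 O t y) : M1 O t (x - y) := by
  rw [sub_eq_add_neg]; exact hx.add hy.neg

lemma M2.sub {x y : K} (hx : M2 O t x) (hy : M2 O t y) : M2 O t (x - y) := by
  rw [sub_eq_add_neg]; exact hx.add hy.neg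

lemma M1.of_eq {x y : K} (hx : M1 O t x) (h : y = x) : M1 O t y := h ▸ hx
lemma M2.of_eq {x y : K} (hx : M2 O t x) (h : y = x) : M2 O t y := h ▸ hx

lemma M1.mul_t {x : K} (hx : M1 O t x) : M2 O t (t * x) := by
  obtain ⟨r, hr, rfl⟩ := hx
  exact ⟨r, hr, by ring⟩

lemma M1.mul_M1 {x y : K} (hx : M1 O t x) (hy : M1 O t y) : M2 O t (x * y) := by
  obtain ⟨r, hr, rfl⟩ := hx
  obtain ⟨s, hs, rfl⟩ := hy
  exact ⟨r * s, O.mul_mem hr hs, by ring⟩

lemma M2.toM1 (hL : Loc O t) {x : K} (hx : M2 O t x) : M1 O t x := by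
  obtain ⟨r, hr, rfl⟩ := hx
  exact ⟨t * r, O.mul_mem hL.mem hr, by ring⟩

lemma M1.mem (hL : Loc O t) {x : K} (hx : M1 O t x) : x ∈ O := by
  obtain ⟨r, hr, rfl⟩ := hx
  exact O.mul_mem hL.mem hr

lemma M1.t_mul {x : K} (hx : x ∈ O) : M1 O t (t * x) := ⟨x, hx, rfl⟩

lemma M1.sum {ι : Type*} (s : Finset ι) (f : ι → K) (h : ∀ i ∈ s, M1 O t (f i)) :
    M1 O t (∑ i ∈ s, f i) :=
  Finset.sum_induction f (M1 O t) (fun _ _ => M1.add) M1.zero h

lemma M2.sum {ι : Type*} (s : Finset ι) (f : ι → K) (h : ∀ i ∈ s, M2 O t (f i)) :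
    M2 O t (∑ i ∈ s, f i) :=
  Finset.sum_induction f (M2 O t) (fun _ _ => M2.add) M2.zero h

lemma E.one : E O t 1 0 := ⟨O.zero_mem, M2.zero.of_eq (by ring)⟩

lemma E.toM1 (hL : Loc O t) {u α : K} (h : E O t u α) : M1 O t (u - 1) :=
  ((h.2.toM1 hL).add (M1.t_mul h.1)).of_eq (by ring)

lemma E.mem (hL : Loc O t) {u α : K} (h : E O t u α) : u ∈ O := by
  have := O.add_mem ((h.toM1 hL).mem hL) O.one_mem
  simpa using this

lemma E.ne (hL : Loc O t) {u α : K} (h : E O t u α) : u ≠ 0 := by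
  obtain ⟨r, hr, e⟩ := h.toM1 hL
  have := hL.ne r hr
  rw [← e] at this; simpa using this

lemma E.inv_mem (hL : Loc O t) {u α : K} (h : E O t u α) : u⁻¹ ∈ O := by
  obtain ⟨r, hr, e⟩ := h.toM1 hL
  have := hL.inv r hr
  rw [← e] at this; simpa using this

lemma E.mul (hL : Loc O t) {u w α β : K} (h : E O t u α) (h' : E O t w β) :
    E O t (u * w) (α + β) := by
  refine ⟨O.add_mem h.1 h'.1, ?_⟩
  exact ((h.2.add h'.2).add ((h.toM1 hL).mul_M1 (h'.toM1 hL))).of_eq (by ring)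

lemma E.inv (hL : Loc O t) {u α : K} (h : E O t u α) : E O t u⁻¹ (-α) := by
  refine ⟨O.neg_mem h.1, ?_⟩
  have hu := h.ne hL
  have h1 := ((h.toM1 hL).mul_M1 (h.toM1 hL)).mul_left (h.inv_mem hL)
  refine (h1.sub h.2).of_eq ?_
  field_simp
  ring

lemma E.of_eq {u α u' α' : K} (h : E O t u α) (e : u' = u) (e' : α' = α) : E O t u' α' := by
  rw [e, e']; exact h

lemma E.div (hL : Loc O t) {u w α β : K} (h : E O t u α) (h' : E O t w β) :
    E O t (u / w) (α - β) :=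
  (h.mul hL (h'.inv hL)).of_eq (div_eq_mul_inv _ _) (sub_eq_add_neg _ _)

lemma E.sq (hL : Loc O t) {u α : K} (h : E O t u α) : E O t (u ^ 2) (2 * α) :=
  (h.mul hL h).of_eq (by ring) (by ring)

lemma E.prod (hL : Loc O t) (u α : ℕ → K) (k : ℕ) (h : ∀ i, i < k → E O t (u i) (α i)) :
    E O t (∏ i ∈ range k, u i) (∑ i ∈ range k, α i) := by
  induction k with
  | zero => simpa using E.one
  | succ k ih =>
    rw [Finset.prod_range_succ, Finset.sum_range_succ]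
    exact (ih fun i hi => h i (by omega)).mul hL (h k (by omega))

lemma E.ofM1 {u : K} (h : M1 O t (u - 1)) : ∃ α, E O t u α := by
  obtain ⟨r, hr, e⟩ := h
  exact ⟨r, hr, M2.zero.of_eq (by rw [e]; ring)⟩

lemma E.ofM2 {u : K} (h : M2 O t (u - 1)) : E O t u 0 :=
  ⟨O.zero_mem, h.of_eq (by ring)⟩

lemma E.toM2 {u : K} (h : E O t u 0) : M2 O t (u - 1) := h.2.of_eq (by ring)

lemma E.pow_one_sub (hL : Loc O t) (r : ℕ) : E O t ((1 - t) ^ r) (-(r : K)) := by
  induction r with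
  | zero => simpa using E.one
  | succ r ih =>
    have h1 : E O t (1 - t) (-1) := ⟨O.neg_mem O.one_mem, M2.zero.of_eq (by ring)⟩
    exact (ih.mul hL h1).of_eq (by ring) (by push_cast; ring)

lemma geom_expand [CharZero K] (hL : Loc O t) (s : ℕ) :
    M2 O t (∑ i ∈ range (s + 1), (1 - t) ^ i - (s + 1) + t * (s * (s + 1) / 2)) := by
  induction s with
  | zero => exact M2.zero.of_eq (by simp)
  | succ s ih =>
    rw [Finset.sum_range_succ]
    exact (ih.add (E.pow_one_sub hL (s + 1)).2).of_eq (by push_cast; ring)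

lemma E.geom [CharZero K] (hL : Loc O t) (hq : ∀ r : ℚ, (r : K) ∈ O) (ht : t ≠ 0) (s : ℕ) :
    E O t ((1 - (1 - t) ^ (s + 1)) / (t * (s + 1))) (-((s : K) / 2)) := by
  have hs : ((s : K) + 1) ≠ 0 := by exact_mod_cast Nat.succ_ne_zero s
  refine ⟨?_, ?_⟩
  · have := hq (-((s : ℚ) / 2)); simpa using this
  · have h1 := geom_expand hL s
    have h2 : ((s : K) + 1)⁻¹ ∈ O := by
      have := hq (((s : ℚ) + 1)⁻¹); simpa using this
    refine (h1.mul_left h2).of_eq ?_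
    have h3 := mul_neg_geom_sum (1 - t) (s + 1)
    rw [← h3]
    field_simp
    ring

end Pool.Agent.Lib.MP_c25fd9_nt
end

-- part Pool.Agent.Lib.MP_c25fd9_nt.Whipple
section

/-! A terminating special case of the q-Whipple summation, by a Zeilberger certificate. -/

set_option autoImplicit false

namespace Pool.Agent.Lib.MP_c25fd9_nt

open Finset

variable {K : Type*} [Field K]

def hf (p : K) (l : ℕ) : K :=
  (1 - p ^ (2 * l + 1)) * p / ((1 - p ^ (l + 1)) ^ 2 * (1 - p ^ (2 * l + 2)))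

def wt (p x : K) (k : ℕ) : K :=
  ∏ l ∈ range k, ((1 - p ^ l / x) * (1 - x * p ^ (l + 1)) * hf p l)

def ut (p x : K) (k : ℕ) : K :=
  ∏ l ∈ range k, ((1 - p ^ l / (x * p ^ 2)) * (1 - x * p ^ (l + 1)) * hf p l)

lemma wt_shift (p x : K) (k : ℕ) :
    (1 - x * p) * (1 - x * p ^ 2) * wt p (x * p ^ 2) k
      = ut p x k * ((1 - x * p ^ (k + 1)) * (1 - x * p ^ (k + 2))) := by
  induction k with
  | zero => simp [wt, ut]
  | succ k ih =>
    unfold wt ut at *
    rw [Finset.prod_range_succ, Finset.prod_range_succ, ← mul_assoc, ih]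
    ring

lemma wt_base (p x : K) (hp : p ≠ 0) (hx : x ≠ 0) (k : ℕ) :
    (1 - x * p) * (1 - x * p ^ 2) * wt p x k
      = ut p x k * ((x * p ^ 2 - p ^ k) * (x * p - p ^ k)) := by
  induction k with
  | zero => simp [wt, ut]; ring
  | succ k ih =>
    unfold wt ut at *
    rw [Finset.prod_range_succ, Finset.prod_range_succ, ← mul_assoc, ih]
    field_simp
    ring

lemma telescope (p x : K) (hp : p ≠ 0) (hx : x ≠ 0) (h1 : ∀ s, 1 ≤ s → 1 - p ^ s ≠ 0) (k : ℕ) :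
    (1 - x * p) * (1 - x * p ^ 2) * ((1 - x * p ^ 2) ^ 2 * ∑ l ∈ range k, wt p (x * p ^ 2) l
      - p * (1 - x * p) ^ 2 * ∑ l ∈ range k, wt p x l)
      = - (ut p x k * ((1 - p ^ k) ^ 2 * (1 - p ^ (2 * k))) * (p ^ 2 * x * (1 - p ^ 3 * x ^ 2))
          / p ^ k) := by
  induction k with
  | zero => simp
  | succ k ih =>
    rw [Finset.sum_range_succ, Finset.sum_range_succ]
    have e1 := wt_shift p x k
    have e2 := wt_base p x hp hx k
    have e3 : ut p x (k + 1) * ((1 - p ^ (k + 1)) ^ 2 * (1 - p ^ (2 * (k + 1))))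
        = ut p x k * ((1 - p ^ k / (x * p ^ 2)) * (1 - x * p ^ (k + 1))
          * ((1 - p ^ (2 * k + 1)) * p)) := by
      unfold ut
      rw [Finset.prod_range_succ]
      unfold hf
      have a1 := h1 (k + 1) (by omega)
      have a2 := h1 (2 * k + 2) (by omega)
      have a3 : 2 * (k + 1) = 2 * k + 2 := by ring
      rw [a3]
      field_simp
    rw [e3]
    have hk : p ^ k ≠ 0 := pow_ne_zero _ hp
    have key : (1 - x * p ^ 2) ^ 2 * (ut p x k * ((1 - x * p ^ (k + 1)) * (1 - x * p ^ (k + 2))))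
        - p * (1 - x * p) ^ 2 * (ut p x k * ((x * p ^ 2 - p ^ k) * (x * p - p ^ k)))
        = - (ut p x k * ((1 - p ^ k / (x * p ^ 2)) * (1 - x * p ^ (k + 1))
          * ((1 - p ^ (2 * k + 1)) * p)) * (p ^ 2 * x * (1 - p ^ 3 * x ^ 2)) / p ^ (k + 1))
          + (ut p x k * ((1 - p ^ k) ^ 2 * (1 - p ^ (2 * k))) * (p ^ 2 * x * (1 - p ^ 3 * x ^ 2))
          / p ^ k) := by
      have b1 : p ^ (2 * k + 1) = (p ^ k) ^ 2 * p := by ring
      have b2 : p ^ (2 * k) = (p ^ k) ^ 2 := by ring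
      rw [b1, b2, pow_succ p k, pow_add p k 2]
      generalize p ^ k = Y at hk
      field_simp
      ring
    linear_combination ih + key + (1 - x * p ^ 2) ^ 2 * e1 - p * (1 - x * p) ^ 2 * e2

lemma wt_zero (p : K) (hp : p ≠ 0) (N k : ℕ) (hk : N < k) : wt p (p ^ N) k = 0 := by
  unfold wt
  apply Finset.prod_eq_zero (Finset.mem_range.2 hk)
  rw [div_self (pow_ne_zero _ hp)]; simp

theorem whipple (p : K) (hp : p ≠ 0) (h1 : ∀ s, 1 ≤ s → 1 - p ^ s ≠ 0) (M : ℕ) :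
    ∑ l ∈ range (2 * M + 1), wt p (p ^ (2 * M)) l
      = ∏ j ∈ range M, (p * (1 - p ^ (2 * j + 1)) ^ 2 / (1 - p ^ (2 * j + 2)) ^ 2) := by
  induction M with
  | zero => simp [wt]
  | succ M ih =>
    have h := telescope p (p ^ (2 * M)) hp (pow_ne_zero _ hp) h1 (2 * M + 3)
    have hu : ut p (p ^ (2 * M)) (2 * M + 3) = 0 := by
      unfold ut
      apply Finset.prod_eq_zero (Finset.mem_range.2 (show 2 * M + 2 < 2 * M + 3 by omega))
      rw [← pow_add, div_self (pow_ne_zero _ hp)]; simp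
    have hs : ∑ l ∈ range (2 * M + 3), wt p (p ^ (2 * M)) l
        = ∑ l ∈ range (2 * M + 1), wt p (p ^ (2 * M)) l := by
      rw [Finset.sum_range_succ, Finset.sum_range_succ, wt_zero p hp _ _ (by omega),
        wt_zero p hp _ (2 * M + 1 + 1) (by omega)]
      simp
    rw [hu, hs, ih, ← pow_succ, ← pow_add] at h
    have a1 := h1 (2 * M + 1) (by omega)
    have a2 := h1 (2 * M + 2) (by omega)
    have h2 : (1 - p ^ (2 * M + 2)) ^ 2 * ∑ l ∈ range (2 * M + 3), wt p (p ^ (2 * M + 2)) l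
        - p * (1 - p ^ (2 * M + 1)) ^ 2 * ∏ j ∈ range M,
          (p * (1 - p ^ (2 * j + 1)) ^ 2 / (1 - p ^ (2 * j + 2)) ^ 2) = 0 := by
      have : (1 - p ^ (2 * M + 1)) * (1 - p ^ (2 * M + 2)) ≠ 0 := mul_ne_zero a1 a2
      apply mul_left_cancel₀ this
      rw [h]; simp
    rw [Finset.prod_range_succ, show 2 * (M + 1) + 1 = 2 * M + 3 by ring,
      show 2 * (M + 1) = 2 * M + 2 by ring]
    field_simp
    linear_combination h2

end Pool.Agent.Lib.MP_c25fd9_nt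
end

-- part Pool.Agent.Lib.MP_c25fd9_nt.Blocks
section

/-! Block decomposition of the truncated sum modulo `(1-q^n)^2`. -/

set_option autoImplicit false

namespace Pool.Agent.Lib.MP_c25fd9_nt

open Finset

variable {K : Type*} [Field K]

structure Setup [CharZero K] (O : Subring K) (q : K) (n : ℕ) : Prop where
  loc : Loc O (1 - q ^ n)
  qmem : q ∈ O
  qinv : q⁻¹ ∈ O
  qne : q ≠ 0
  rat : ∀ r : ℚ, (r : K) ∈ O
  ne : ∀ s, 1 ≤ s → 1 - q ^ s ≠ 0
  unit : ∀ s, ¬ n ∣ s → (1 - q ^ s)⁻¹ ∈ O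

def ph (q : K) (s : ℕ) : K := (1 - q ^ s) ^ 2 * (1 - q ^ (2 * s))
def gg (q : K) (s : ℕ) : K := q ^ s / (1 - q ^ s)
def ps (q : K) (s : ℕ) : K := 2 * gg q s + 2 * gg q (2 * s)
def bb (q : K) (l : ℕ) : K := q ^ 2 * ph q (2 * l + 1) / ph q (2 * l + 2)
def aa (q : K) (k : ℕ) : K := ∏ l ∈ range k, bb q l
def cc (q : K) (n r l : ℕ) : K := q ^ 2 * ph q (r * n + (2 * l + 1)) / ph q (r * n + (2 * l + 2))
def PP (q : K) (n r i : ℕ) : K := ∏ l ∈ range i, cc q n r l
def lam (q : K) (l : ℕ) : K := ps q (2 * l + 1) - ps q (2 * l + 2)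
def LL (q : K) (i : ℕ) : K := ∑ l ∈ range i, lam q l

lemma aa_block (q : K) (n j i : ℕ) : aa q (n * j + i) = aa q (n * j) * PP q n (2 * j) i := by
  unfold aa PP
  rw [Finset.prod_range_add]
  congr 1
  apply Finset.prod_congr rfl
  intro l _
  unfold bb cc
  rw [show 2 * (n * j + l) + 1 = 2 * j * n + (2 * l + 1) by ring,
    show 2 * (n * j + l) + 2 = 2 * j * n + (2 * l + 2) by ring]

variable [CharZero K] {O : Subring K} {q : K} {n : ℕ}

lemma Setup.one_sub_mem (h : Setup O q n) (s : ℕ) : 1 - q ^ s ∈ O :=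
  O.sub_mem O.one_mem (O.pow_mem h.qmem s)

lemma Setup.natCast_mem (_h : Setup O q n) (s : ℕ) : (s : K) ∈ O := _root_.natCast_mem O s

lemma Setup.two_mem (h : Setup O q n) : (2 : K) ∈ O := by
  have := h.natCast_mem 2
  rwa [Nat.cast_ofNat] at this

lemma one_le_of_not_dvd {n s : ℕ} (hs : ¬ n ∣ s) : 1 ≤ s := by
  rcases Nat.eq_zero_or_pos s with rfl | h
  · exact absurd (dvd_zero n) hs
  · exact h

lemma not_dvd_two_mul {n s : ℕ} (hn : Odd n) (hs : ¬ n ∣ s) : ¬ n ∣ 2 * s := fun h =>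
  hs ((Nat.Coprime.dvd_mul_left (Nat.coprime_two_right.2 hn)).1 h)

lemma not_dvd_of_lt {n s : ℕ} (h0 : 1 ≤ s) (h1 : s < n) : ¬ n ∣ s := fun h =>
  absurd (Nat.le_of_dvd h0 h) (by omega)

lemma not_dvd_add {n s : ℕ} (r : ℕ) (hs : ¬ n ∣ s) : ¬ n ∣ r * n + s := fun h =>
  hs ((Nat.dvd_add_right (Dvd.intro_left r rfl)).1 h)

lemma Setup.gg_mem (h : Setup O q n) {s : ℕ} (hs : ¬ n ∣ s) : gg q s ∈ O := by
  unfold gg; rw [div_eq_mul_inv]
  exact O.mul_mem (O.pow_mem h.qmem s) (h.unit s hs)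

lemma Setup.ps_mem (h : Setup O q n) (hn : Odd n) {s : ℕ} (hs : ¬ n ∣ s) : ps q s ∈ O :=
  O.add_mem (O.mul_mem h.two_mem (h.gg_mem hs))
    (O.mul_mem h.two_mem (h.gg_mem (not_dvd_two_mul hn hs)))

lemma Setup.ph_mem (h : Setup O q n) (s : ℕ) : ph q s ∈ O :=
  O.mul_mem (O.pow_mem (h.one_sub_mem s) 2) (h.one_sub_mem _)

lemma Setup.ph_ne (h : Setup O q n) {s : ℕ} (hs : 1 ≤ s) : ph q s ≠ 0 :=
  mul_ne_zero (pow_ne_zero _ (h.ne s hs)) (h.ne _ (by omega))

lemma Setup.ph_inv (h : Setup O q n) (hn : Odd n) {s : ℕ} (hs : ¬ n ∣ s) : (ph q s)⁻¹ ∈ O := by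
  unfold ph
  rw [mul_inv, ← inv_pow]
  exact O.mul_mem (O.pow_mem (h.unit s hs) 2) (h.unit _ (not_dvd_two_mul hn hs))

lemma Setup.Epow (h : Setup O q n) (r : ℕ) : E O (1 - q ^ n) (q ^ (r * n)) (-(r : K)) :=
  (E.pow_one_sub h.loc r).of_eq (by rw [sub_sub_cancel, ← pow_mul, mul_comm]) rfl

lemma Setup.E1 (h : Setup O q n) (r : ℕ) {s : ℕ} (hs : ¬ n ∣ s) :
    E O (1 - q ^ n) ((1 - q ^ (r * n + s)) / (1 - q ^ s)) (r * gg q s) := by
  refine ⟨O.mul_mem (h.natCast_mem r) (h.gg_mem hs), ?_⟩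
  have h1 := (h.Epow r).2.neg.mul_left (h.gg_mem hs)
  refine h1.of_eq ?_
  have := h.ne s (one_le_of_not_dvd hs)
  unfold gg
  rw [pow_add]
  field_simp
  ring

lemma Setup.E2 (h : Setup O q n) (hn : Odd n) (r : ℕ) {s : ℕ} (hs : ¬ n ∣ s) :
    E O (1 - q ^ n) (ph q (r * n + s) / ph q s) (r * ps q s) := by
  have h1 := (h.E1 r hs).sq h.loc
  have h2 := h.E1 (2 * r) (not_dvd_two_mul hn hs)
  refine (h1.mul h.loc h2).of_eq ?_ ?_
  · unfold ph
    rw [show 2 * (r * n + s) = 2 * r * n + 2 * s by ring, div_pow, div_mul_div_comm]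
  · unfold ps; push_cast; ring

lemma Setup.E3 (h : Setup O q n) (hn : Odd n) (r l : ℕ) (hl : 2 * l + 2 < n) :
    E O (1 - q ^ n) (cc q n r l / bb q l) (r * lam q l) := by
  have d1 : ¬ n ∣ 2 * l + 1 := not_dvd_of_lt (by omega) (by omega)
  have d2 : ¬ n ∣ 2 * l + 2 := not_dvd_of_lt (by omega) (by omega)
  refine ((h.E2 hn r d1).div h.loc (h.E2 hn r d2)).of_eq ?_ ?_
  · unfold cc bb
    have a1 := h.ph_ne (s := 2 * l + 1) (by omega)
    have a2 := h.ph_ne (s := 2 * l + 2) (by omega)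
    have a3 := h.ph_ne (s := r * n + (2 * l + 2)) (by omega)
    have a4 := h.qne
    field_simp
  · unfold lam; ring

lemma Setup.E4 (h : Setup O q n) (hn : Odd n) (r i : ℕ) (hi : 2 * i < n) :
    E O (1 - q ^ n) (PP q n r i / aa q i) (r * LL q i) := by
  have := E.prod h.loc (fun l => cc q n r l / bb q l) (fun l => r * lam q l) i
    (fun l hl => h.E3 hn r l (by omega))
  refine this.of_eq ?_ ?_
  · unfold PP aa; rw [Finset.prod_div_distrib]
  · unfold LL; rw [Finset.mul_sum]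

lemma Setup.bb_ne (h : Setup O q n) (l : ℕ) : bb q l ≠ 0 :=
  div_ne_zero (mul_ne_zero (pow_ne_zero _ h.qne) (h.ph_ne (by omega))) (h.ph_ne (by omega))

lemma Setup.aa_ne (h : Setup O q n) (k : ℕ) : aa q k ≠ 0 :=
  Finset.prod_ne_zero_iff.2 fun l _ => h.bb_ne l

lemma Setup.cc_mem (h : Setup O q n) (hn : Odd n) (r l : ℕ) (hl : l + 1 < n) : cc q n r l ∈ O := by
  unfold cc
  rw [div_eq_mul_inv]
  refine O.mul_mem (O.mul_mem (O.pow_mem h.qmem 2) (h.ph_mem _)) (h.ph_inv hn (not_dvd_add r ?_))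
  rw [show 2 * l + 2 = 2 * (l + 1) by ring]
  exact not_dvd_two_mul hn (not_dvd_of_lt (by omega) hl)

lemma Setup.bb_mem (h : Setup O q n) (hn : Odd n) (l : ℕ) (hl : l + 1 < n) : bb q l ∈ O := by
  have := h.cc_mem hn 0 l hl
  unfold cc at this; unfold bb; simpa using this

lemma Setup.PP_mem (h : Setup O q n) (hn : Odd n) (r i : ℕ) (hi : i < n) : PP q n r i ∈ O :=
  O.prod_mem fun l hl => h.cc_mem hn r l (by have := Finset.mem_range.1 hl; omega)

lemma Setup.aa_mem (h : Setup O q n) (hn : Odd n) (i : ℕ) (hi : i < n) : aa q i ∈ O :=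
  O.prod_mem fun l hl => h.bb_mem hn l (by have := Finset.mem_range.1 hl; omega)

lemma Setup.aa_inv (h : Setup O q n) (hn : Odd n) (i : ℕ) (hi : 2 * i < n) : (aa q i)⁻¹ ∈ O := by
  unfold aa
  rw [← Finset.prod_inv_distrib]
  refine O.prod_mem fun l hl => ?_
  have := Finset.mem_range.1 hl
  unfold bb
  rw [inv_div, div_eq_mul_inv, mul_inv, ← inv_pow]
  exact O.mul_mem (h.ph_mem _) (O.mul_mem (O.pow_mem h.qinv 2)
    (h.ph_inv hn (not_dvd_of_lt (by omega) (by omega))))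

lemma Setup.lam_mem (h : Setup O q n) (hn : Odd n) (l : ℕ) (hl : 2 * l + 2 < n) : lam q l ∈ O :=
  O.sub_mem (h.ps_mem hn (not_dvd_of_lt (by omega) (by omega)))
    (h.ps_mem hn (not_dvd_of_lt (by omega) (by omega)))

lemma Setup.LL_mem (h : Setup O q n) (hn : Odd n) (i : ℕ) (hi : 2 * i < n) : LL q i ∈ O :=
  O.sum_mem fun l hl => h.lam_mem hn l (by have := Finset.mem_range.1 hl; omega)

/-- the singular factors -/
lemma Setup.Esing (h : Setup O q n) (hn : 1 ≤ n) (s : ℕ) :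
    E O (1 - q ^ n) (ph q ((s + 1) * n) / (2 * (1 - q ^ n) ^ 3 * ((s : K) + 1) ^ 3))
      (-(2 * (s : K) + 1 / 2)) := by
  have ht := h.ne n hn
  have h1 := (E.geom h.loc h.rat ht s).sq h.loc
  have h2 := E.geom h.loc h.rat ht (2 * s + 1)
  refine (h1.mul h.loc h2).of_eq ?_ ?_
  · unfold ph
    rw [sub_sub_cancel, ← pow_mul, ← pow_mul, show n * (s + 1) = (s + 1) * n by ring,
      show n * (2 * s + 1 + 1) = 2 * ((s + 1) * n) by ring]
    have hs : ((s : K) + 1) ≠ 0 := by exact_mod_cast Nat.succ_ne_zero s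
    have hs2 : (2 * (s : K) + 1 + 1) ≠ 0 := by exact_mod_cast (show 2 * s + 1 + 1 ≠ 0 by omega)
    push_cast
    field_simp
    ring
  · push_cast; ring

lemma PP_full (q : K) (hq : q ≠ 0) (N r : ℕ) (hph : ∀ s, 1 ≤ s → ph q s ≠ 0) :
    PP q (2 * N + 1) r (2 * N + 1) = PP q (2 * N + 1) r N * q ^ (2 * (2 * N + 1))
      * ph q ((r + 1) * (2 * N + 1)) / ph q ((r + 2) * (2 * N + 1)) / PP q (2 * N + 1) (r + 1) N := by
  have key : ∀ i, PP q (2 * N + 1) r (N + (i + 1)) * PP q (2 * N + 1) (r + 1) i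
      = PP q (2 * N + 1) r N * q ^ (2 * (2 * i + 1)) * ph q ((r + 1) * (2 * N + 1))
        / ph q ((r + 1) * (2 * N + 1) + (2 * i + 1)) := by
    intro i
    induction i with
    | zero =>
      unfold PP
      rw [Finset.prod_range_succ]
      unfold cc
      rw [show r * (2 * N + 1) + (2 * N + 1) = (r + 1) * (2 * N + 1) by ring,
        show r * (2 * N + 1) + (2 * N + 2) = (r + 1) * (2 * N + 1) + (2 * 0 + 1) by ring]
      simp only [Finset.range_zero, Finset.prod_empty]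
      ring
    | succ i ih =>
      have e1 : PP q (2 * N + 1) r (N + (i + 1 + 1))
          = PP q (2 * N + 1) r (N + (i + 1)) * cc q (2 * N + 1) r (N + (i + 1)) := by
        unfold PP; rw [← add_assoc N (i + 1) 1, Finset.prod_range_succ]
      have e2 : PP q (2 * N + 1) (r + 1) (i + 1)
          = PP q (2 * N + 1) (r + 1) i * cc q (2 * N + 1) (r + 1) i := by
        unfold PP; rw [Finset.prod_range_succ]
      rw [e1, e2, mul_mul_mul_comm, ih]
      unfold cc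
      rw [show r * (2 * N + 1) + (2 * (N + (i + 1)) + 1) = (r + 1) * (2 * N + 1) + (2 * i + 2)
          by ring,
        show r * (2 * N + 1) + (2 * (N + (i + 1)) + 2) = (r + 1) * (2 * N + 1) + (2 * (i + 1) + 1)
          by ring]
      have a1 := hph ((r + 1) * (2 * N + 1) + (2 * i + 1)) (by omega)
      have a2 := hph ((r + 1) * (2 * N + 1) + (2 * i + 2)) (by omega)
      have a3 := hph ((r + 1) * (2 * N + 1) + (2 * (i + 1) + 1)) (by omega)
      field_simp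
      ring
  have hP : PP q (2 * N + 1) (r + 1) N ≠ 0 := by
    unfold PP
    refine Finset.prod_ne_zero_iff.2 fun l _ => ?_
    exact div_ne_zero (mul_ne_zero (pow_ne_zero _ hq) (hph _ (by omega))) (hph _ (by omega))
  have := key N
  rw [show N + (N + 1) = 2 * N + 1 by ring,
    show (r + 1) * (2 * N + 1) + (2 * N + 1) = (r + 2) * (2 * N + 1) by ring] at this
  rw [← this, mul_div_cancel_right₀ _ hP]

def tau (K : Type*) [Field K] (j : ℕ) : K :=
  ∏ i ∈ range j, ((2 * (i : K) + 1) / (2 * (i : K) + 2)) ^ 3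

lemma tau_ne (j : ℕ) : tau K j ≠ 0 := by
  refine Finset.prod_ne_zero_iff.2 fun i _ => pow_ne_zero _ (div_ne_zero ?_ ?_)
  · exact_mod_cast (show 2 * i + 1 ≠ 0 by omega)
  · exact_mod_cast (show 2 * i + 2 ≠ 0 by omega)

lemma Setup.tau_mem (h : Setup O q n) (j : ℕ) : tau K j ∈ O := by
  refine O.prod_mem fun i _ => ?_
  have := h.rat (((2 * (i : ℚ) + 1) / (2 * (i : ℚ) + 2)) ^ 3)
  simpa using this

lemma Setup.E5 {N : ℕ} (h : Setup O q (2 * N + 1)) (j : ℕ) :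
    E O (1 - q ^ (2 * N + 1)) (aa q ((2 * N + 1) * j) / tau K j) (-(j * LL q N)) := by
  have hn : Odd (2 * N + 1) := odd_two_mul_add_one N
  induction j with
  | zero => simpa [aa, tau] using E.one
  | succ j ih =>
    have h1 := h.E4 hn (2 * j) N (by omega)
    have h2 := h.E4 hn (2 * j + 1) N (by omega)
    have h3 := h.Epow 2
    have h4 := h.Esing (by omega) (2 * j)
    have h5 := h.Esing (by omega) (2 * j + 1)
    have h6 := (((ih.mul h.loc h1).div h.loc h2).mul h.loc h3).mul h.loc (h4.div h.loc h5)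
    refine h6.of_eq ?_ ?_
    · rw [Nat.mul_succ, aa_block, PP_full q h.qne N (2 * j) (fun s hs => h.ph_ne hs)]
      have e : tau K (j + 1) = tau K j * ((2 * (j : K) + 1) / (2 * (j : K) + 2)) ^ 3 := by
        unfold tau; rw [Finset.prod_range_succ]
      rw [e, show 2 * j + 1 + 1 = 2 * j + 2 by ring]
      have a1 := tau_ne (K := K) j
      have a2 := h.aa_ne N
      have a3 := h.ne (2 * N + 1) (by omega)
      have a4 : (2 * (j : K) + 1) ≠ 0 := by exact_mod_cast (show 2 * j + 1 ≠ 0 by omega)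
      have a5 : (2 * (j : K) + 2) ≠ 0 := by exact_mod_cast (show 2 * j + 2 ≠ 0 by omega)
      have a5' : (2 * (j : K) + 1 + 1) ≠ 0 := by exact_mod_cast (show 2 * j + 1 + 1 ≠ 0 by omega)
      have a6 := h.ph_ne (s := (2 * j + 2) * (2 * N + 1)) (by nlinarith)
      have a7 : PP q (2 * N + 1) (2 * j + 1) N ≠ 0 := by
        intro h0
        have := h2.ne h.loc
        rw [h0, zero_div] at this
        exact this rfl
      push_cast
      generalize 1 - q ^ (2 * N + 1) = T at a3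
      generalize ph q ((2 * j + 2) * (2 * N + 1)) = A at a6
      generalize ph q ((2 * j + 1) * (2 * N + 1)) = B
      generalize PP q (2 * N + 1) (2 * j + 1) N = C at a7
      generalize PP q (2 * N + 1) (2 * j) N = D
      generalize aa q ((2 * N + 1) * j) = F
      generalize q ^ (2 * (2 * N + 1)) = G
      rw [show (2 * (j : K) + 1 + 1) = 2 * (j : K) + 2 by ring]
      generalize 2 * (j : K) + 2 = J at a5
      generalize 2 * (j : K) + 1 = J' at a4
      field_simp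
    · push_cast; ring

end Pool.Agent.Lib.MP_c25fd9_nt
end

-- part Pool.Agent.Lib.MP_c25fd9_nt.Reflect
section

/-! The reflection `i ↦ N - i`, block sums and the first block. -/

set_option autoImplicit false

namespace Pool.Agent.Lib.MP_c25fd9_nt

open Finset

variable {K : Type*} [Field K] [CharZero K] {O : Subring K} {q : K} {n : ℕ}

lemma Setup.one_sub_rn (h : Setup O q n) (r : ℕ) : M1 O (1 - q ^ n) (1 - q ^ (r * n)) :=
  ((h.Epow r).toM1 h.loc).neg.of_eq (by ring)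

lemma not_dvd_compl {n s s' r : ℕ} (e : s + s' = r * n) (hs : ¬ n ∣ s) : ¬ n ∣ s' := fun h =>
  hs ((Nat.dvd_add_left h).1 (e ▸ Dvd.intro_left r rfl))

lemma Setup.gg_refl (h : Setup O q n) {s s' r : ℕ} (e : s + s' = r * n) (hs : ¬ n ∣ s) :
    M1 O (1 - q ^ n) (gg q s' + gg q s + 1) := by
  have hs' := not_dvd_compl e hs
  have h1 := (h.one_sub_rn r).mul_left (O.mul_mem (h.unit s hs) (h.unit s' hs'))
  refine h1.of_eq ?_
  have a1 := h.ne s (one_le_of_not_dvd hs)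
  have a2 := h.ne s' (one_le_of_not_dvd hs')
  unfold gg
  rw [← e, pow_add]
  field_simp
  ring

lemma Setup.ps_refl (h : Setup O q n) (hn : Odd n) {s s' : ℕ} (e : s + s' = n) (hs : ¬ n ∣ s) :
    M1 O (1 - q ^ n) (ps q s' + ps q s + 4) := by
  have h1 := h.gg_refl (r := 1) (s := s) (s' := s') (by omega) hs
  have h2 := h.gg_refl (r := 2) (s := 2 * s) (s' := 2 * s') (by omega) (not_dvd_two_mul hn hs)
  exact ((h1.mul_left h.two_mem).add (h2.mul_left h.two_mem)).of_eq (by unfold ps; ring)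

lemma Setup.lam_refl {N : ℕ} (h : Setup O q (2 * N + 1)) (l l' : ℕ) (e : l + l' + 1 = N) :
    M1 O (1 - q ^ (2 * N + 1)) (lam q l' - lam q l) := by
  have hn : Odd (2 * N + 1) := odd_two_mul_add_one N
  have h1 := h.ps_refl hn (s := 2 * l + 2) (s' := 2 * l' + 1) (by omega)
    (not_dvd_of_lt (by omega) (by omega))
  have h2 := h.ps_refl hn (s := 2 * l + 1) (s' := 2 * l' + 2) (by omega)
    (not_dvd_of_lt (by omega) (by omega))
  exact (h1.sub h2).of_eq (by unfold lam; ring)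

lemma Setup.LL_refl {N : ℕ} (h : Setup O q (2 * N + 1)) (i : ℕ) :
    ∀ i', i + i' = N → M1 O (1 - q ^ (2 * N + 1)) (LL q i' + LL q i - LL q N) := by
  induction i with
  | zero =>
    intro i' e
    obtain rfl : i' = N := by omega
    exact M1.zero.of_eq (by simp [LL])
  | succ i ih =>
    intro i' e
    have h1 := ih (i' + 1) (by omega)
    have h2 := h.lam_refl i i' (by omega)
    refine (h1.sub h2).of_eq ?_
    unfold LL
    rw [Finset.sum_range_succ, Finset.sum_range_succ]; ring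

lemma Setup.rho (h : Setup O q n) {s s' r : ℕ} (e : s + s' = r * n) (hs : ¬ n ∣ s) :
    ∃ α, E O (1 - q ^ n) (-(q ^ s * (1 - q ^ s') / (1 - q ^ s))) α := by
  apply E.ofM1
  have h1 := (h.one_sub_rn r).neg.mul_left (h.unit s hs)
  refine h1.of_eq ?_
  have a1 := h.ne s (one_le_of_not_dvd hs)
  rw [← e, pow_add]
  field_simp
  ring

lemma Setup.ph_refl (h : Setup O q n) (hn : Odd n) {s s' : ℕ} (e : s + s' = n) (hs : ¬ n ∣ s) :
    ∃ α, E O (1 - q ^ n) (-(q ^ (4 * s) * ph q s' / ph q s)) α := by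
  obtain ⟨α, h1⟩ := h.rho (r := 1) (s := s) (s' := s') (by omega) hs
  obtain ⟨β, h2⟩ := h.rho (r := 2) (s := 2 * s) (s' := 2 * s') (by omega) (not_dvd_two_mul hn hs)
  refine ⟨_, ((h1.sq h.loc).mul h.loc h2).of_eq ?_ rfl⟩
  have a1 := h.ne s (one_le_of_not_dvd hs)
  have a2 := h.ne (2 * s) (one_le_of_not_dvd (not_dvd_two_mul hn hs))
  unfold ph
  field_simp
  ring

lemma Setup.bb_refl {N : ℕ} (h : Setup O q (2 * N + 1)) (l l' : ℕ) (e : l + l' + 1 = N) :
    M1 O (1 - q ^ (2 * N + 1)) (bb q l' * bb q l - 1) := by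
  have hn : Odd (2 * N + 1) := odd_two_mul_add_one N
  obtain ⟨α, h1⟩ := h.ph_refl hn (s := 2 * l + 2) (s' := 2 * l' + 1) (by omega)
    (not_dvd_of_lt (by omega) (by omega))
  obtain ⟨β, h2⟩ := h.ph_refl hn (s := 2 * l + 1) (s' := 2 * l' + 2) (by omega)
    (not_dvd_of_lt (by omega) (by omega))
  refine ((h1.div h.loc h2).toM1 h.loc).of_eq ?_
  have a1 := h.ph_ne (s := 2 * l + 1) (by omega)
  have a2 := h.ph_ne (s := 2 * l + 2) (by omega)
  have a3 := h.ph_ne (s := 2 * l' + 2) (by omega)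
  have a4 := h.qne
  unfold bb
  congr 1
  field_simp
  ring

lemma Setup.aa_refl0 {N : ℕ} (h : Setup O q (2 * N + 1)) (i : ℕ) :
    ∀ i', i + i' = N → M1 O (1 - q ^ (2 * N + 1)) (aa q i' - aa q i * aa q N) := by
  have hn : Odd (2 * N + 1) := odd_two_mul_add_one N
  induction i with
  | zero =>
    intro i' e
    obtain rfl : i' = N := by omega
    exact M1.zero.of_eq (by simp [aa])
  | succ i ih =>
    intro i' e
    have h1 := (ih (i' + 1) (by omega)).mul_left (h.bb_mem hn i (by omega))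
    have h2 := (h.bb_refl i i' (by omega)).mul_left (h.aa_mem hn i' (by omega))
    refine (h1.sub h2).of_eq ?_
    unfold aa
    rw [Finset.prod_range_succ, Finset.prod_range_succ]; ring

lemma Setup.aa_refl {M : ℕ} (h : Setup O q (2 * (2 * M) + 1)) (i i' : ℕ) (e : i + i' = 2 * M) :
    M1 O (1 - q ^ (2 * (2 * M) + 1)) (aa q i' - aa q i) := by
  have hn : Odd (2 * (2 * M) + 1) := odd_two_mul_add_one _
  have h1 := (h.aa_refl0 M M (by omega)).mul_left (h.aa_inv hn M (by omega))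
  have h2 : M1 O (1 - q ^ (2 * (2 * M) + 1)) (1 - aa q (2 * M)) := by
    refine h1.of_eq ?_
    have := h.aa_ne M
    field_simp
  exact ((h.aa_refl0 i i' e).sub (h2.mul_left (h.aa_mem hn i (by omega)))).of_eq (by ring)

lemma Setup.sym_sum {M : ℕ} (h : Setup O q (2 * (2 * M) + 1)) :
    M1 O (1 - q ^ (2 * (2 * M) + 1))
      (∑ i ∈ range (2 * M + 1), aa q i * (2 * LL q i - LL q (2 * M))) := by
  have hn : Odd (2 * (2 * M) + 1) := odd_two_mul_add_one _
  have hr := Finset.sum_range_reflect (fun i => aa q i * (2 * LL q i - LL q (2 * M))) (2 * M + 1)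
  have h1 : M1 O (1 - q ^ (2 * (2 * M) + 1))
      (∑ i ∈ range (2 * M + 1), (aa q i * (2 * LL q i - LL q (2 * M))
        + aa q (2 * M + 1 - 1 - i) * (2 * LL q (2 * M + 1 - 1 - i) - LL q (2 * M)))) := by
    apply M1.sum
    intro i hi
    have hi' := Finset.mem_range.1 hi
    have a1 := h.aa_refl i (2 * M + 1 - 1 - i) (by omega)
    have a2 := h.LL_refl i (2 * M + 1 - 1 - i) (by omega)
    have m1 : 2 * LL q (2 * M + 1 - 1 - i) - LL q (2 * M) ∈ O :=
      O.sub_mem (O.mul_mem h.two_mem (h.LL_mem hn _ (by omega))) (h.LL_mem hn _ (by omega))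
    have m2 : 2 * aa q i ∈ O := O.mul_mem h.two_mem (h.aa_mem hn i (by omega))
    exact ((a1.mul_left m1).add (a2.mul_left m2)).of_eq (by ring)
  rw [Finset.sum_add_distrib, hr] at h1
  have h2 : ((1 / 2 : ℚ) : K) ∈ O := h.rat _
  refine (h1.mul_left h2).of_eq ?_
  push_cast; ring

lemma Setup.PP_high {N : ℕ} (h : Setup O q (2 * N + 1)) (hN : 1 ≤ N) (r i : ℕ) (hi : i < N) :
    M2 O (1 - q ^ (2 * N + 1)) (PP q (2 * N + 1) r (N + 1 + i)) := by
  have hn : Odd (2 * N + 1) := odd_two_mul_add_one N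
  induction i with
  | zero =>
    unfold PP
    rw [add_zero, Finset.prod_range_succ]
    refine M2.mul_left ?_ (h.PP_mem hn r N (by omega))
    unfold cc
    have h1 := (h.one_sub_rn (r + 1)).mul_M1 (h.one_sub_rn (r + 1))
    have d : ¬ (2 * N + 1) ∣ r * (2 * N + 1) + (2 * N + 2) := by
      apply not_dvd_add
      rw [show 2 * N + 2 = 2 * (N + 1) by ring]
      exact not_dvd_two_mul hn (not_dvd_of_lt (by omega) (by omega))
    have m1 := O.mul_mem (O.mul_mem (O.pow_mem h.qmem 2) (h.ph_inv hn d))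
      (h.one_sub_mem (2 * ((r + 1) * (2 * N + 1))))
    refine (h1.mul_left m1).of_eq ?_
    rw [show r * (2 * N + 1) + (2 * N + 1) = (r + 1) * (2 * N + 1) by ring]
    rw [div_eq_mul_inv]
    generalize (ph q (r * (2 * N + 1) + (2 * N + 2)))⁻¹ = A
    unfold ph; ring
  | succ i ih =>
    unfold PP
    rw [← add_assoc, Finset.prod_range_succ, mul_comm (∏ l ∈ range (N + 1 + i), _)]
    exact (ih (by omega)).mul_left (h.cc_mem hn r _ (by omega))

lemma Setup.block_sum {M : ℕ} (h : Setup O q (2 * (2 * M) + 1)) (hM : 1 ≤ M) (j : ℕ) :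
    M2 O (1 - q ^ (2 * (2 * M) + 1))
      (∑ i ∈ range (2 * (2 * M) + 1), aa q ((2 * (2 * M) + 1) * j + i)
        - tau K j * ∑ i ∈ range (2 * M + 1), aa q i) := by
  have hn : Odd (2 * (2 * M) + 1) := odd_two_mul_add_one _
  have h5 := h.E5 j
  have hτ := tau_ne (K := K) j
  have ham : aa q ((2 * (2 * M) + 1) * j) ∈ O := by
    have := O.mul_mem (h5.mem h.loc) (h.tau_mem j)
    rwa [div_mul_cancel₀ _ hτ] at this
  have hhigh : M2 O (1 - q ^ (2 * (2 * M) + 1))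
      (∑ i ∈ range (2 * M), aa q ((2 * (2 * M) + 1) * j + (2 * M + 1 + i))) := by
    apply M2.sum
    intro i hi
    rw [aa_block]
    exact (h.PP_high (by omega) _ i (Finset.mem_range.1 hi)).mul_left ham
  have hlow : M2 O (1 - q ^ (2 * (2 * M) + 1))
      (∑ i ∈ range (2 * M + 1), (aa q ((2 * (2 * M) + 1) * j + i) - tau K j * aa q i
        - (1 - q ^ (2 * (2 * M) + 1)) * (tau K j * j)
          * (aa q i * (2 * LL q i - LL q (2 * M))))) := by
    apply M2.sum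
    intro i hi
    have hi' := Finset.mem_range.1 hi
    have h6 := (h5.mul h.loc (h.E4 hn (2 * j) i (by omega))).2
    refine (h6.mul_left (O.mul_mem (h.tau_mem j) (h.aa_mem hn i (by omega)))).of_eq ?_
    rw [aa_block]
    have := h.aa_ne i
    push_cast
    field_simp
    ring
  have hs := (h.sym_sum.mul_left (O.mul_mem (h.tau_mem j) (h.natCast_mem j))).mul_t
  refine ((hhigh.add hlow).add hs).of_eq ?_
  rw [show 2 * (2 * M) + 1 = (2 * M + 1) + 2 * M by ring, Finset.sum_range_add,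
    Finset.sum_sub_distrib, Finset.sum_sub_distrib, ← Finset.mul_sum, ← Finset.mul_sum]
  ring

lemma sum_blocks {M : Type*} [AddCommMonoid M] (g : ℕ → M) (m k : ℕ) :
    ∑ n ∈ range (m * k), g n = ∑ j ∈ range k, ∑ i ∈ range m, g (m * j + i) := by
  induction k with
  | zero => simp
  | succ k ih => rw [Nat.mul_succ, Finset.sum_range_add, ih, Finset.sum_range_succ]

lemma Setup.all_blocks {M : ℕ} (h : Setup O q (2 * (2 * M) + 1)) (hM : 1 ≤ M) (m : ℕ) :
    M2 O (1 - q ^ (2 * (2 * M) + 1))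
      (∑ k ∈ range ((2 * (2 * M) + 1) * m), aa q k
        - (∑ j ∈ range m, tau K j) * ∑ i ∈ range (2 * M + 1), aa q i) := by
  rw [sum_blocks, Finset.sum_mul, ← Finset.sum_sub_distrib]
  exact M2.sum _ _ fun j _ => h.block_sum hM j

/-- `(1 - q^s/y)(1 - q^s y) ≡ (1-q^s)^2` with `y = q^n`. -/
lemma Setup.Epair (h : Setup O q n) {s : ℕ} (hs : ¬ n ∣ s) :
    E O (1 - q ^ n) ((1 - q ^ s / q ^ n) * (1 - q ^ s * q ^ n) / (1 - q ^ s) ^ 2) 0 := by
  apply E.ofM2
  refine ⟨-(q ^ s * (q⁻¹) ^ n * ((1 - q ^ s)⁻¹) ^ 2), O.neg_mem (O.mul_mem (O.mul_mem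
    (O.pow_mem h.qmem s) (O.pow_mem h.qinv n)) (O.pow_mem (h.unit s hs) 2)), ?_⟩
  have a1 := h.ne s (one_le_of_not_dvd hs)
  have a2 : q ^ n ≠ 0 := pow_ne_zero _ h.qne
  rw [inv_pow]
  field_simp
  ring

lemma Setup.first_block {N : ℕ} (h : Setup O q (2 * N + 1)) :
    M2 O (1 - q ^ (2 * N + 1))
      (∑ i ∈ range (N + 1), aa q i - ∑ i ∈ range (N + 1), wt (q ^ 2) ((q ^ 2) ^ N) i) := by
  have hn : Odd (2 * N + 1) := odd_two_mul_add_one N
  rw [← Finset.sum_sub_distrib]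
  apply M2.sum
  intro i hi
  have hi' := Finset.mem_range.1 hi
  have h1 := E.prod h.loc (fun l => (1 - q ^ (2 * l + 1) / q ^ (2 * N + 1))
    * (1 - q ^ (2 * l + 1) * q ^ (2 * N + 1)) / (1 - q ^ (2 * l + 1)) ^ 2) (fun _ => 0) i
    (fun l hl => h.Epair (not_dvd_of_lt (by omega) (by omega)))
  rw [Finset.sum_const_zero] at h1
  refine (h1.toM2.neg.mul_left (h.aa_mem hn i (by omega))).of_eq ?_
  have e : wt (q ^ 2) ((q ^ 2) ^ N) i = aa q i * ∏ l ∈ range i,
      ((1 - q ^ (2 * l + 1) / q ^ (2 * N + 1))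
        * (1 - q ^ (2 * l + 1) * q ^ (2 * N + 1)) / (1 - q ^ (2 * l + 1)) ^ 2) := by
    unfold wt aa
    rw [← Finset.prod_mul_distrib]
    apply Finset.prod_congr rfl
    intro l _
    unfold hf bb ph
    have a1 := h.ne (2 * l + 1) (by omega)
    have a2 := h.ne (2 * l + 2) (by omega)
    have a3 := h.ne (2 * (2 * l + 2)) (by omega)
    have a4 := h.qne
    have b1 : (q ^ 2) ^ l / (q ^ 2) ^ N = q ^ (2 * l + 1) / q ^ (2 * N + 1) := by
      field_simp; ring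
    have b2 : (q ^ 2) ^ N * (q ^ 2) ^ (l + 1) = q ^ (2 * l + 1) * q ^ (2 * N + 1) := by ring
    rw [b1, b2, ← pow_mul, ← pow_mul, ← pow_mul, show 2 * (l + 1) = 2 * l + 2 by ring]
    generalize q ^ (2 * l + 1) / q ^ (2 * N + 1) = A
    generalize q ^ (2 * l + 1) * q ^ (2 * N + 1) = B
    generalize 1 - q ^ (2 * l + 1) = C at a1
    generalize 1 - q ^ (2 * l + 2) = D at a2
    generalize 1 - q ^ (2 * (2 * l + 2)) = F at a3
    field_simp
  rw [e]; ring

end Pool.Agent.Lib.MP_c25fd9_nt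
end

-- part Pool.Agent.Lib.MP_c25fd9_nt.Final
section

/-! The closed form of `C_n(q)` modulo `(1-q^n)^2`, the abstract theorem, and the local ring
of `ℚ(q)` at the cyclotomic polynomial. -/

set_option autoImplicit false

namespace Pool.Agent.Lib.MP_c25fd9_nt

open Finset Polynomial

section abstract

variable {K : Type*} [Field K] [CharZero K] {O : Subring K} {q : K} {n : ℕ}

lemma Setup.Epair2 (h : Setup O q n) {s s' : ℕ} (e : s + s' = n) (hs : ¬ n ∣ s) :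
    E O (1 - q ^ n) ((1 - q ^ (n + s)) * (1 - q ^ s') * q ^ s / (-(q ^ n) * (1 - q ^ s) ^ 2)) 0 := by
  apply E.ofM2
  refine ⟨-(q ^ s * (q⁻¹) ^ n * ((1 - q ^ s)⁻¹) ^ 2), O.neg_mem (O.mul_mem (O.mul_mem
    (O.pow_mem h.qmem s) (O.pow_mem h.qinv n)) (O.pow_mem (h.unit s hs) 2)), ?_⟩
  have a1 := h.ne s (one_le_of_not_dvd hs)
  have a2 : q ^ n ≠ 0 := pow_ne_zero _ h.qne
  have a3 : q ^ n = q ^ s * q ^ s' := by rw [← pow_add, e]
  rw [inv_pow, pow_add]
  have a4 : (1 - q ^ s') * q ^ s = q ^ s - q ^ n := by rw [a3]; ring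
  rw [mul_assoc (1 - q ^ n * q ^ s), a4]
  field_simp
  ring

lemma Setup.closed {M : ℕ} (h : Setup O q (2 * (2 * M) + 1)) :
    M2 O (1 - q ^ (2 * (2 * M) + 1))
      (∏ j ∈ range M, (q ^ 2 * (1 - (q ^ 2) ^ (2 * j + 1)) ^ 2 / (1 - (q ^ 2) ^ (2 * j + 2)) ^ 2)
        - (1 - q ^ (2 * (2 * M) + 1)) / (1 - q) * (∏ j ∈ range (2 * M), (1 - q ^ 3 * (q ^ 4) ^ j))
          / ∏ j ∈ range (2 * M), (1 - q ^ 5 * (q ^ 4) ^ j)) := by
  set n := 2 * (2 * M) + 1 with hn
  have hW : ∏ j ∈ range M,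
      (q ^ 2 * (1 - (q ^ 2) ^ (2 * j + 1)) ^ 2 / (1 - (q ^ 2) ^ (2 * j + 2)) ^ 2) ∈ O := by
    refine O.prod_mem fun j hj => ?_
    have := Finset.mem_range.1 hj
    rw [← pow_mul, ← pow_mul, div_eq_mul_inv, ← inv_pow]
    exact O.mul_mem (O.mul_mem (O.pow_mem h.qmem 2) (O.pow_mem (h.one_sub_mem _) 2))
      (O.pow_mem (h.unit _ (not_dvd_of_lt (by omega) (by omega))) 2)
  have h1 := E.prod h.loc (fun j =>
    ((1 - q ^ (n + (4 * j + 2))) * (1 - q ^ (4 * (M - 1 - j) + 3)) * q ^ (4 * j + 2)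
      / (-(q ^ n) * (1 - q ^ (4 * j + 2)) ^ 2)) /
    ((1 - q ^ (n + (4 * j + 4))) * (1 - q ^ (4 * (M - 1 - j) + 1)) * q ^ (4 * j + 4)
      / (-(q ^ n) * (1 - q ^ (4 * j + 4)) ^ 2))) (fun _ => 0 - 0) M
    (fun j hj => (h.Epair2 (by omega) (not_dvd_of_lt (by omega) (by omega))).div h.loc
      (h.Epair2 (by omega) (not_dvd_of_lt (by omega) (by omega))))
  simp only [sub_self, Finset.sum_const_zero] at h1
  refine (h1.toM2.neg.mul_left hW).of_eq ?_
  have p3 : ∏ j ∈ range (2 * M), (1 - q ^ 3 * (q ^ 4) ^ j)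
      = ∏ j ∈ range M, ((1 - q ^ (n + (4 * j + 2))) * (1 - q ^ (4 * (M - 1 - j) + 3))) := by
    rw [two_mul, Finset.prod_range_add, Finset.prod_mul_distrib, mul_comm,
      Finset.prod_range_reflect (fun j => 1 - q ^ (4 * j + 3)) M]
    congr 1
    · apply Finset.prod_congr rfl; intro j _; rw [hn]; ring
    · apply Finset.prod_congr rfl; intro j _; ring
  have p5 : (1 - q) * ∏ j ∈ range (2 * M), (1 - q ^ 5 * (q ^ 4) ^ j)
      = (1 - q ^ n) *
        ∏ j ∈ range M, ((1 - q ^ (n + (4 * j + 4))) * (1 - q ^ (4 * (M - 1 - j) + 1))) := by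
    have e1 : ∏ j ∈ range (2 * M + 1), (1 - q ^ (4 * j + 1))
        = (1 - q) * ∏ j ∈ range (2 * M), (1 - q ^ 5 * (q ^ 4) ^ j) := by
      rw [Finset.prod_range_succ', mul_comm]
      congr 1
      · simp
      · apply Finset.prod_congr rfl; intro j _; ring
    rw [← e1, show 2 * M + 1 = (M + 1) + M by ring, Finset.prod_range_add, Finset.prod_range_succ,
      Finset.prod_mul_distrib, Finset.prod_range_reflect (fun j => 1 - q ^ (4 * j + 1)) M]
    have e2 : ∏ j ∈ range M, (1 - q ^ (4 * (M + 1 + j) + 1))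
        = ∏ j ∈ range M, (1 - q ^ (n + (4 * j + 4))) := by
      apply Finset.prod_congr rfl; intro j _; rw [hn]; ring
    rw [e2, show 4 * M + 1 = n by omega]; ring
  have a0 : (1 - q) ≠ 0 := by simpa using h.ne 1 le_rfl
  have a1 := h.ne n (by omega)
  have e3 : (1 - q ^ n) / (1 - q) * (∏ j ∈ range (2 * M), (1 - q ^ 3 * (q ^ 4) ^ j))
          / ∏ j ∈ range (2 * M), (1 - q ^ 5 * (q ^ 4) ^ j)
      = ∏ j ∈ range M, (((1 - q ^ (n + (4 * j + 2))) * (1 - q ^ (4 * (M - 1 - j) + 3))) /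
        ((1 - q ^ (n + (4 * j + 4))) * (1 - q ^ (4 * (M - 1 - j) + 1)))) := by
    rw [Finset.prod_div_distrib, div_mul_eq_mul_div, div_div, p5, p3,
      mul_div_mul_left _ _ a1]
  rw [e3, neg_sub, mul_sub, mul_one, ← Finset.prod_mul_distrib]
  congr 1
  apply Finset.prod_congr rfl
  intro j _
  have b1 := h.ne (4 * j + 2) (by omega)
  have b2 := h.ne (4 * j + 4) (by omega)
  have b3 := h.ne (n + (4 * j + 4)) (by omega)
  have b4 := h.ne (4 * (M - 1 - j) + 1) (by omega)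
  have b5 := h.qne
  rw [← pow_mul, ← pow_mul, show 2 * (2 * j + 1) = 4 * j + 2 by ring,
    show 2 * (2 * j + 2) = 4 * j + 4 by ring]
  generalize 1 - q ^ (4 * j + 2) = A at b1
  generalize 1 - q ^ (4 * j + 4) = B at b2
  generalize 1 - q ^ (n + (4 * j + 4)) = C at b3
  generalize 1 - q ^ (4 * (M - 1 - j) + 1) = D at b4
  generalize 1 - q ^ (n + (4 * j + 2)) = F
  generalize 1 - q ^ (4 * (M - 1 - j) + 3) = G
  field_simp
  ring

theorem Setup.main {M : ℕ} (h : Setup O q (2 * (2 * M) + 1)) (hM : 1 ≤ M) (m : ℕ) :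
    M2 O (1 - q ^ (2 * (2 * M) + 1))
      (∑ k ∈ range ((2 * (2 * M) + 1) * m), aa q k
        - (1 - q ^ (2 * (2 * M) + 1)) / (1 - q) * (∏ j ∈ range (2 * M), (1 - q ^ 3 * (q ^ 4) ^ j))
          / (∏ j ∈ range (2 * M), (1 - q ^ 5 * (q ^ 4) ^ j)) * ∑ j ∈ range m, tau K j) := by
  have h1 := h.all_blocks hM m
  have h2 := h.first_block
  have h3 := h.closed
  have hT : ∑ j ∈ range m, tau K j ∈ O := O.sum_mem fun j _ => h.tau_mem j
  rw [whipple (q ^ 2) (pow_ne_zero _ h.qne)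
    (fun s hs => by rw [← pow_mul]; exact h.ne _ (by omega)) M] at h2
  exact ((h1.add (h2.mul_left hT)).add (h3.mul_left hT)).of_eq (by ring)

omit [CharZero K] in
lemma aa_eq (q : K) (k : ℕ) :
    aa q k = (∏ j ∈ range k, (1 - q * (q ^ 2) ^ j)) ^ 2 * (∏ j ∈ range k, (1 - q ^ 2 * (q ^ 4) ^ j))
      * q ^ (2 * k) / ((∏ j ∈ range k, (1 - q ^ 2 * (q ^ 2) ^ j)) ^ 2
        * ∏ j ∈ range k, (1 - q ^ 4 * (q ^ 4) ^ j)) := by
  have e : q ^ (2 * k) = ∏ _j ∈ range k, q ^ 2 := by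
    rw [Finset.prod_const, Finset.card_range, pow_mul]
  rw [e, ← Finset.prod_pow, ← Finset.prod_pow, ← Finset.prod_mul_distrib,
    ← Finset.prod_mul_distrib, ← Finset.prod_mul_distrib, ← Finset.prod_div_distrib]
  unfold aa
  apply Finset.prod_congr rfl
  intro j _
  unfold bb ph
  congr 1 <;> ring

lemma tau_eq (k : ℕ) :
    tau K k = (((∏ j ∈ range k, ((1 / 2 : ℚ) + j)) ^ 3 / ((k.factorial : ℚ)) ^ 3 : ℚ) : K) := by
  induction k with
  | zero => simp [tau]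
  | succ k ih =>
    unfold tau at *
    rw [Finset.prod_range_succ, ih, Finset.prod_range_succ, Nat.factorial_succ]
    have a1 : ((k.factorial : ℕ) : K) ≠ 0 := by exact_mod_cast k.factorial_ne_zero
    have a2 : ((k : K) + 1) ≠ 0 := by exact_mod_cast Nat.succ_ne_zero k
    have a3 : (2 * (k : K) + 2) ≠ 0 := by exact_mod_cast (show 2 * k + 2 ≠ 0 by omega)
    push_cast
    field_simp
    ring

end abstract

/-- the local ring of `ℚ(q)` at a prime polynomial -/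
def locRing (P : ℚ[X]) (hP : Prime P) : Subring (RatFunc ℚ) where
  carrier := {x | ∃ A B : ℚ[X], ¬ P ∣ B ∧
    x = algebraMap ℚ[X] (RatFunc ℚ) A / algebraMap ℚ[X] (RatFunc ℚ) B}
  mul_mem' := by
    rintro _ _ ⟨A, B, hB, rfl⟩ ⟨C, D, hD, rfl⟩
    refine ⟨A * C, B * D, fun h => (hP.dvd_or_dvd h).elim hB hD, ?_⟩
    rw [map_mul, map_mul, div_mul_div_comm]
  one_mem' := ⟨1, 1, fun h => hP.not_isUnit (isUnit_of_dvd_one h), by simp⟩
  add_mem' := by
    rintro _ _ ⟨A, B, hB, rfl⟩ ⟨C, D, hD, rfl⟩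
    have hB0 : algebraMap ℚ[X] (RatFunc ℚ) B ≠ 0 :=
      RatFunc.algebraMap_ne_zero (fun h => hB (h ▸ dvd_zero P))
    have hD0 : algebraMap ℚ[X] (RatFunc ℚ) D ≠ 0 :=
      RatFunc.algebraMap_ne_zero (fun h => hD (h ▸ dvd_zero P))
    refine ⟨A * D + B * C, B * D, fun h => (hP.dvd_or_dvd h).elim hB hD, ?_⟩
    rw [div_add_div _ _ hB0 hD0, map_add, map_mul, map_mul, map_mul]
  zero_mem' := ⟨0, 1, fun h => hP.not_isUnit (isUnit_of_dvd_one h), by simp⟩
  neg_mem' := by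
    rintro _ ⟨A, B, hB, rfl⟩
    exact ⟨-A, B, hB, by rw [map_neg, neg_div]⟩

lemma cyc_prime {n : ℕ} (hn : 0 < n) : Prime (cyclotomic n ℚ) :=
  (cyclotomic.irreducible_rat hn).prime

lemma cyc_dvd {n : ℕ} (_hn : 0 < n) : cyclotomic n ℚ ∣ 1 - X ^ n := by
  have := cyclotomic.dvd_X_pow_sub_one n ℚ
  rw [← neg_sub]; exact this.neg_right

lemma cyc_not_dvd {n s : ℕ} (hn : 0 < n) (hs : ¬ n ∣ s) : ¬ cyclotomic n ℚ ∣ 1 - X ^ s := by
  rintro ⟨R, hR⟩
  have hζ := Complex.isPrimitiveRoot_exp n hn.ne'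
  have h0 : aeval (Complex.exp (2 * Real.pi * Complex.I / n)) (cyclotomic n ℚ) = 0 := by
    have := hζ.isRoot_cyclotomic hn
    rw [aeval_def, eval₂_eq_eval_map, map_cyclotomic]
    exact this
  have h1 := congrArg (aeval (Complex.exp (2 * Real.pi * Complex.I / n))) hR
  rw [map_mul, h0, zero_mul, map_sub, map_one, map_pow, aeval_X, sub_eq_zero] at h1
  exact hs ((hζ.pow_eq_one_iff_dvd s).1 h1.symm)

lemma alg_one_sub (s : ℕ) : algebraMap ℚ[X] (RatFunc ℚ) (1 - X ^ s) = 1 - RatFunc.X ^ s := by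
  rw [map_sub, map_one, map_pow, RatFunc.algebraMap_X]

lemma setup_ratfunc {n : ℕ} (hn : 1 < n) :
    Setup (locRing (cyclotomic n ℚ) (cyc_prime (by omega))) RatFunc.X n := by
  have hn0 : 0 < n := by omega
  have hP := cyc_prime hn0
  have h1 : ¬ cyclotomic n ℚ ∣ 1 := fun h => hP.not_isUnit (isUnit_of_dvd_one h)
  have key : ∀ A B : ℚ[X], ¬ cyclotomic n ℚ ∣ B →
      ¬ cyclotomic n ℚ ∣ B + (1 - X ^ n) * A ∧
      1 + (1 - RatFunc.X ^ n) * (algebraMap ℚ[X] (RatFunc ℚ) A / algebraMap ℚ[X] (RatFunc ℚ) B)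
        = algebraMap ℚ[X] (RatFunc ℚ) (B + (1 - X ^ n) * A) / algebraMap ℚ[X] (RatFunc ℚ) B := by
    intro A B hB
    have hB0 : algebraMap ℚ[X] (RatFunc ℚ) B ≠ 0 :=
      RatFunc.algebraMap_ne_zero (fun h => hB (h ▸ dvd_zero _))
    refine ⟨fun h => hB ((dvd_add_left ((cyc_dvd hn0).mul_right A)).1 h), ?_⟩
    rw [map_add, map_mul, alg_one_sub]
    field_simp
  refine ⟨⟨⟨1 - X ^ n, 1, h1, by rw [alg_one_sub]; simp⟩, ?_, ?_⟩, ⟨X, 1, h1, by simp⟩, ?_,
    RatFunc.X_ne_zero, ?_, ?_, ?_⟩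
  · rintro _ ⟨A, B, hB, rfl⟩
    obtain ⟨k1, k2⟩ := key A B hB
    rw [k2]
    exact div_ne_zero (RatFunc.algebraMap_ne_zero (fun h => k1 (h ▸ dvd_zero _)))
      (RatFunc.algebraMap_ne_zero (fun h => hB (h ▸ dvd_zero _)))
  · rintro _ ⟨A, B, hB, rfl⟩
    obtain ⟨k1, k2⟩ := key A B hB
    rw [k2, inv_div]
    exact ⟨_, _, k1, rfl⟩
  · refine ⟨1, X, fun h => ?_, by simp⟩
    have h2 : cyclotomic n ℚ ∣ X ^ n := h.trans (dvd_pow_self X hn0.ne')
    have h3 := dvd_add (cyc_dvd hn0) h2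
    rw [sub_add_cancel] at h3
    exact h1 h3
  · intro r
    refine ⟨C r, 1, h1, ?_⟩
    simp
  · intro s hs
    rw [← alg_one_sub]
    apply RatFunc.algebraMap_ne_zero
    intro h
    have := congrArg (eval 0) h
    simp [zero_pow (show s ≠ 0 by omega)] at this
  · intro s hs
    exact ⟨1, 1 - X ^ s, cyc_not_dvd hn0 hs, by rw [alg_one_sub]; simp⟩

lemma M2_ratfunc {n : ℕ} (hn : 0 < n) {x : RatFunc ℚ}
    (h : M2 (locRing (cyclotomic n ℚ) (cyc_prime hn)) (1 - RatFunc.X ^ n) x) :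
    ∃ A B : ℚ[X], IsCoprime B (cyclotomic n ℚ) ∧
      x = algebraMap ℚ[X] (RatFunc ℚ) (cyclotomic n ℚ) ^ 2 * algebraMap ℚ[X] (RatFunc ℚ) A
        / algebraMap ℚ[X] (RatFunc ℚ) B := by
  obtain ⟨_, ⟨A, B, hB, rfl⟩, rfl⟩ := h
  obtain ⟨R, hR⟩ := cyc_dvd hn
  refine ⟨R ^ 2 * A, B, ((cyclotomic.irreducible_rat hn).coprime_iff_not_dvd.2 hB).symm, ?_⟩
  rw [← alg_one_sub, hR, map_mul, map_mul, map_pow]
  ring

end Pool.Agent.Lib.MP_c25fd9_nt
end
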